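import Pool.Agent.H27.L1.H34.GU.Targets1

/-!
Rows ALU, KLI of the board gu (MP_52e316_nt): vectors modulo `N`, kernel lattices.
-/

set_option autoImplicit false

namespace Pool.Agent.H27.L1.H40.GUM

open Pool.Agent.H27.L1.H34.GM Pool.Agent.H27.L1.H34.GZ Pool.Agent.H27.L1.H34.GU

theorem cQ_eq {m N : ℕ} (α : ZM m) : cQ N α = (Int.castRingHom (ZMod N)).mapMatrix α := rfl

theorem dt_ac {m N : ℕ} (u : VN m N) (α : ZM m) (x : VN m N) :
    dt u (ac N α x) = dt (Matrix.vecMul u (cQ N α)) x := by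
  have h := Matrix.dotProduct_mulVec u (cQ N α) x
  exact h

theorem ac_one {m N : ℕ} (x : VN m N) : ac N (1 : ZM m) x = x := by
  unfold ac
  rw [cQ_eq, map_one, Matrix.one_mulVec]

theorem ac_mul {m N : ℕ} (α β : ZM m) (x : VN m N) : ac N (α * β) x = ac N α (ac N β x) := by
  unfold ac
  rw [cQ_eq, map_mul, ← cQ_eq, ← cQ_eq, Matrix.mulVec_mulVec]

theorem ac_add {m N : ℕ} (α β : ZM m) (x : VN m N) :
    ac N (α + β) x = ac N α x + ac N β x := by
  unfold ac
  rw [cQ_eq, map_add, ← cQ_eq, ← cQ_eq, Matrix.add_mulVec]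

theorem pr_ac {m N : ℕ} (α : ZM m) (x : VN m N) (h : Pr (ac N α x)) : Pr x := by
  obtain ⟨u, hu⟩ := h
  exact ⟨Matrix.vecMul u (cQ N α), by rw [← dt_ac, hu]⟩

theorem pf_ALU : T_ALU := by
  intro m N _ _ _
  have hinv : ∀ γ : ZM m, IsUnit γ → ∃ γ' : ZM m, γ' * γ = 1 ∧ γ * γ' = 1 := by
    intro γ hγ
    obtain ⟨u, rfl⟩ := hγ
    exact ⟨↑u⁻¹, u.inv_mul, u.mul_inv⟩
  refine ⟨ac_one, fun α β x => ⟨ac_mul α β x, ac_add α β x⟩, fun γ x hγ => ⟨pr_ac γ x, fun h => ?_⟩,
    pr_ac, ?_, fun γ hγ => ?_⟩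
  · obtain ⟨γ', h1, _⟩ := hinv γ hγ
    refine pr_ac γ' _ ?_
    rw [← ac_mul, h1, ac_one]
    exact h
  · simp only [Fintype.card_fun, Fintype.card_fin, ZMod.card]
  · obtain ⟨γ', h1, h2⟩ := hinv γ hγ
    refine ⟨fun x y hxy => ?_, fun y => ⟨ac N γ' y, ?_⟩⟩
    · have h3 : ac N γ' (ac N γ x) = ac N γ' (ac N γ y) := congrArg (ac N γ') hxy
      rw [← ac_mul, ← ac_mul, h1, ac_one, ac_one] at h3
      exact h3
    · rw [← ac_mul, h2, ac_one]

/-! ### kernel lattices -/

/-- the homomorphism with kernel `kl x` -/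
def klHom {m N : ℕ} (x : VN m N) : (Fin m → ℤ) →+ ZMod N where
  toFun c := ∑ i, (c i : ZMod N) * x i
  map_zero' := by simp
  map_add' a b := by
    simp only [Pi.add_apply, Int.cast_add, add_mul, Finset.sum_add_distrib]

theorem kl_ker {m N : ℕ} (x : VN m N) : kl x = (klHom x).ker := by
  ext c
  rw [AddMonoidHom.mem_ker]
  rfl

theorem mem_kl {m N : ℕ} (x : VN m N) (c : Fin m → ℤ) : c ∈ kl x ↔ klHom x c = 0 := by
  rw [kl_ker, AddMonoidHom.mem_ker]

theorem kl_surj {m N : ℕ} (x : VN m N) (hx : Pr x) :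
    ∃ c0 : Fin m → ℤ, klHom x c0 = 1 := by
  obtain ⟨u, hu⟩ := hx
  choose c hc using fun i => ZMod.intCast_surjective (u i)
  refine ⟨c, ?_⟩
  have h1 : klHom x c = ∑ i, (c i : ZMod N) * x i := rfl
  have h2 : dt u x = ∑ i, u i * x i := rfl
  rw [← hu, h1, h2]
  exact Finset.sum_congr rfl fun i _ => by rw [hc]

theorem pf_KLI : T_KLI := by
  intro m N _ _ _
  refine ⟨fun x hx => ?_, fun M => ?_⟩
  · rw [kl_ker, AddSubgroup.index_ker]
    have hs : Function.Surjective (klHom x) := by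
      intro a
      obtain ⟨c0, hc0⟩ := kl_surj x hx
      obtain ⟨n, rfl⟩ := ZMod.intCast_surjective a
      refine ⟨n • c0, ?_⟩
      rw [map_zsmul, hc0, zsmul_eq_mul, mul_one]
    rw [AddMonoidHom.range_eq_top.2 hs]
    have h2 : Nat.card (⊤ : AddSubgroup (ZMod N)) = Nat.card (ZMod N) :=
      Nat.card_congr AddSubgroup.topEquiv.toEquiv
    rw [h2, Nat.card_zmod]
  · rcases Set.eq_empty_or_nonempty {x : VN m N | Pr x ∧ kl x = M} with h | ⟨x0, hx0, hM⟩
    · rw [h, Set.ncard_empty]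
      exact Nat.zero_le _
    · obtain ⟨c0, hc0⟩ := kl_surj x0 hx0
      have hsub : {x : VN m N | Pr x ∧ kl x = M} ⊆
          Set.range (fun t : ZMod N => (fun i => x0 i * t : VN m N)) := by
        rintro x ⟨_, hx⟩
        refine ⟨klHom x c0, ?_⟩
        funext i
        obtain ⟨n, hn⟩ := ZMod.intCast_surjective (x0 i)
        have h1 : klHom x0 (Pi.single i 1) = x0 i := by
          have h2 : klHom x0 (Pi.single i 1) =
              ∑ j, (((Pi.single i (1 : ℤ) : Fin m → ℤ) j : ℤ) : ZMod N) * x0 j := rfl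
          rw [h2, Finset.sum_eq_single i]
          · simp
          · intro j _ hj
            rw [Pi.single_eq_of_ne hj]
            simp
          · intro h
            exact absurd (Finset.mem_univ i) h
        have h1' : klHom x (Pi.single i 1) = x i := by
          have h2 : klHom x (Pi.single i 1) =
              ∑ j, (((Pi.single i (1 : ℤ) : Fin m → ℤ) j : ℤ) : ZMod N) * x j := rfl
          rw [h2, Finset.sum_eq_single i]
          · simp
          · intro j _ hj
            rw [Pi.single_eq_of_ne hj]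
            simp
          · intro h
            exact absurd (Finset.mem_univ i) h
        have h3 : (Pi.single i 1 - n • c0 : Fin m → ℤ) ∈ kl x0 := by
          rw [mem_kl, map_sub, map_zsmul, h1, hc0, zsmul_eq_mul, mul_one, hn, sub_self]
        rw [hM, ← hx, mem_kl, map_sub, map_zsmul, h1', zsmul_eq_mul, hn] at h3
        exact (sub_eq_zero.1 h3).symm
      calc {x : VN m N | Pr x ∧ kl x = M}.ncard ≤
          (Set.range (fun t : ZMod N => (fun i => x0 i * t : VN m N))).ncard :=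
            Set.ncard_le_ncard hsub (Set.toFinite _)
        _ ≤ N := by
            rw [← Set.image_univ]
            refine (Set.ncard_image_le (Set.toFinite _)).trans (le_of_eq ?_)
            rw [Set.ncard_univ, Nat.card_zmod]

end Pool.Agent.H27.L1.H40.GUM
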